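import Pool.Agent.Helper3_Riesz.Latin
import Pool.Agent.Helper3_Riesz.Common

/-!
# MP_b06300_an: simultaneous exponential Riesz bases exist for two sets of equal size

The matrix `K (x + y)`, `x ∈ E₁`, `y ∈ E₂`, of a generic function `K` on `G` is nonsingular
(greedy choice of a leading monomial), and expanding `K` in characters and choosing an expansion
of minimal support gives the common basis.
-/

open Matrix Finset

namespace Pool.Agent.Results.MP_b06300_an.SimultaneousBasis

/-- `Λ` is an exponential Riesz basis for `E`: it has `|E|` elements and the restrictions to `E` of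
the characters in `Λ` are linearly independent. -/
def IsRieszBasis {G : Type} [AddCommGroup G] (Λ : Finset (AddChar G ℂ)) (E : Finset G) : Prop :=
  Λ.card = E.card ∧
    LinearIndependent ℂ (fun (χ : Λ) (x : E) => (χ : AddChar G ℂ) (x : G))

/-- Two subsets of the same size of a finite abelian group have a simultaneous exponential
Riesz basis. -/
theorem result (G : Type) [AddCommGroup G] [Finite G] (E₁ E₂ : Finset G)
    (h : E₁.card = E₂.card) :
    ∃ Λ : Finset (AddChar G ℂ), IsRieszBasis Λ E₁ ∧ IsRieszBasis Λ E₂ := by
  classical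
  have := Fintype.ofFinite G
  let e : E₁ ≃ E₂ := Finset.equivOfCardEq h
  obtain ⟨K, hK⟩ := Riesz.latin_det (univ : Finset G) E₁
    (fun x y => (x : G) + (e y : G))
    (fun x y y' hyy => by
      have h1 : (e y : G) = (e y' : G) := add_left_cancel hyy
      exact e.injective (Subtype.ext h1))
    (fun y x x' hxx => by
      have h1 : (x : G) = (x' : G) := add_right_cancel hxx
      exact Subtype.ext h1)
    (fun _ _ => mem_univ _)
  let t : AddChar G ℂ → ℂ := fun χ => (AddChar.complexBasis G).repr K χ
  let u : AddChar G ℂ → E₁ → ℂ := fun χ x => χ (x : G)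
  let w : AddChar G ℂ → E₁ → ℂ := fun χ x => χ (e x : G)
  have hsum : ∀ g : G, K g = ∑ χ, t χ * χ g := by
    intro g
    have h1 := congrFun ((AddChar.complexBasis G).sum_repr K) g
    rw [← h1, Finset.sum_apply]
    apply Finset.sum_congr rfl
    intro χ _
    rw [Pi.smul_apply, smul_eq_mul, AddChar.complexBasis_apply]
  have hmat : Riesz.mat u w t = Matrix.of (fun x y : E₁ => K ((x : G) + (e y : G))) := by
    ext x y
    unfold Riesz.mat
    rw [Matrix.sum_apply, Matrix.of_apply, hsum]
    apply Finset.sum_congr rfl
    intro χ _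
    rw [Matrix.smul_apply, vecMulVec_apply, smul_eq_mul, AddChar.map_add_eq_mul]
  have hdet : (Riesz.mat u w t).det ≠ 0 := by rw [hmat]; exact hK
  obtain ⟨S, hS, hu, hw⟩ := Riesz.exists_common_basis u w t hdet
  rw [Fintype.card_coe] at hS
  refine ⟨S, ⟨hS, hu⟩, ⟨hS.trans h, ?_⟩⟩
  exact LinearIndependent.of_comp (LinearMap.funLeft ℂ ℂ e) hw

end Pool.Agent.Results.MP_b06300_an.SimultaneousBasis
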